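import Pool.Agent.H73.TO.Main

/-! # MP_166b83_co : property (R) holds for `k = 3` in every dimension `d ≥ 4`

The definitions `Euc`, `Face`, `IsPolytope`, `combOrbits`, `GeomEquiv`, `geomOrbits`, `PropertyR` are in
`Pool.Agent.H63.KO.Stmt` (namespace `KOrbit`).

Paper and skeleton by helper73 (folder `Pool/Agent/H73/TO`), on the basis of the folder `Pool/Agent/H63/KO`;
authors of the modules: helpers 5, 7, 9, 11, 17, 18, 20, 21, 22, 23, 25, 27, 30, 31, 32, 33, 34, 35, 40, 41,
42, 43, 45, 47, 49, 50, 51, 58, 60, 61, 63, 64, 66, 69, 70, 72, 73, 77, 80, 82, 86, 88, 90, 91, 92, 95, 98. -/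

namespace Pool.Agent.Results.MP_166b83_co.ThreeOrbit

open KOrbit

/-- For every `d ≥ 4` the pair `(3, d)` has property (R): every convex `d`-polytope with exactly three
combinatorial flag orbits is isomorphic to a convex `d`-polytope with exactly three geometric flag orbits. -/
theorem result (d : ℕ) (hd : 4 ≤ d) : PropertyR 3 d := H73.TO.row_three d hd

end Pool.Agent.Results.MP_166b83_co.ThreeOrbit
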