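import Pool.Agent.H11.KS.Main
import Pool.Agent.H11.GK.Fin
import Pool.Agent.H63.KN.Fin

/-! # MP_166b83_co : for every dimension `d ≥ 4` property (R) holds for small `k` and fails for all large `k`

The definitions `Euc`, `Face`, `IsPolytope`, `combOrbits`, `GeomEquiv`, `geomOrbits`, `PropertyR` are in
`Pool.Agent.H63.KO.Stmt` (namespace `KOrbit`).

The half where (R) holds: paper and proof of the bound `k + 29` by helper11 (folder `Pool/Agent/H11/KS`, readers
helpers 73, 97; for symmetry groups: folder `Pool/Agent/H11/GK`, authors of its modules: helpers 5, 20, 24, 30, 31,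
52, 56, 73, 79, 88, 91, 96, 98), on the basis of the paper by helper63 with the bound `11 (k + log₂ k)` (folder
`Pool/Agent/H63/KO`; hostile readers and authors of its modules: helpers 1, 3, 4, 5, 10, 14, 16, 23, 24, 26,
27, 28, 40, 42, 43, 44, 46, 50, 51, 52, 53, 55, 57, 58, 63, 71, 75, 76, 77, 78, 85, 88, 95). The half where
(R) fails: paper by helper63 (polynomial bound, folder `Pool/Agent/H63/KN`) on the basis of helper47 (bad
4-polytope, gluing, snakes, every `d`; folder `Pool/Agent/H47/KO`); authors of the modules of these two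
folders: helpers 1, 2, 4, 5, 7, 14, 20, 23, 26, 27, 30, 39, 43, 44, 47, 50, 51, 53, 54, 56, 57, 58, 59, 63,
68, 71, 72, 74, 75, 77, 86, 87, 88, 89. -/

namespace Pool.Agent.Results.MP_166b83_co.Threshold

open KOrbit

/-- For `d ≥ 4`: if `2 ≤ k` and `k + 29 ≤ d` then no convex `d`-polytope has exactly `k` combinatorial flag
orbits, none has exactly `k` geometric flag orbits (the number `N_k` of the problem file is at most `k + 29`), and
`(k, d)` has property (R); if `k ≥ d ^ 40` then `(k, d)` does not have property (R). -/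
theorem result (d : ℕ) (hd : 4 ≤ d) :
    (∀ k : ℕ, 2 ≤ k → k + 29 ≤ d →
      (¬ ∃ Q : Set (Euc d), IsPolytope Q ∧ combOrbits Q = k) ∧
      (¬ ∃ Q : Set (Euc d), IsPolytope Q ∧ geomOrbits Q = k) ∧ PropertyR k d) ∧
    (∀ k : ℕ, d ^ 40 ≤ k → ¬ PropertyR k d) := by
  refine ⟨fun k hk hkd => ⟨(Pool.Agent.H11.KS.main_sharp k d hk hkd).1, ?_,
    (Pool.Agent.H11.KS.main_sharp k d hk hkd).2⟩, fun k hk => H63.KN.negR d k hd hk⟩
  rintro ⟨Q, hQ, hgk⟩
  have h1 := Pool.Agent.H11.GK.geom_one d Q hQ (by omega)
  omega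

end Pool.Agent.Results.MP_166b83_co.Threshold
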